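import Mathlib
import Pool.Agent.H892.ZL.Stm

set_option autoImplicit false

/-! # ZL-LA: minors of a matrix orthogonal to a `2 × 6` matrix (helper264 for helper892) -/

namespace Pool.Agent.H264.ZL

open Pool.Agent.H892.ZL
open Matrix

theorem t_LA : S_LA := by
  intro F _ X Y hYX hL
  obtain ⟨L0, hL0⟩ := hL
  let e : Fin 4 ⊕ Fin 2 ≃ Fin 6 := finSumFinEquiv (m := 4) (n := 2)
  have hsub : ∀ L : Matrix (Fin 4) (Fin 6) F, (fromRows L Y).submatrix id e =
      fromRows (L.submatrix id e) (Y.submatrix id e) := by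
    intro L
    ext i j
    rcases i with i | i <;> rfl
  have hD : ∀ L : Matrix (Fin 4) (Fin 6) F, D6 L Y =
      (fromRows (L.submatrix id e) (Y.submatrix id e)).det := by
    intro L
    rw [← hsub]
    rfl
  have hmul : ∀ L : Matrix (Fin 4) (Fin 6) F, L * Xᵀ = L.submatrix id e * (X.submatrix id e)ᵀ := by
    intro L
    rw [transpose_submatrix]
    exact (submatrix_mul_equiv L Xᵀ id e id).symm
  have hYX' : Y.submatrix id e * (X.submatrix id e)ᵀ = 0 := by
    rw [transpose_submatrix, submatrix_mul_equiv Y Xᵀ id e id, hYX]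
    rfl
  refine ⟨(L0 * Xᵀ).det / D6 L0 Y, ?_⟩
  intro L
  rw [hD] at hL0
  have hu : IsUnit (fromRows (L0.submatrix id e) (Y.submatrix id e)).det := isUnit_iff_ne_zero.2 hL0
  obtain ⟨N, hN⟩ : ∃ N : Matrix (Fin 4) (Fin 4 ⊕ Fin 2) F,
      N * fromRows (L0.submatrix id e) (Y.submatrix id e) = L.submatrix id e := by
    refine ⟨L.submatrix id e * (fromRows (L0.submatrix id e) (Y.submatrix id e))⁻¹, ?_⟩
    rw [Matrix.mul_assoc, nonsing_inv_mul _ hu, Matrix.mul_one]
  rw [← fromCols_toCols N, fromCols_mul_fromRows] at hN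
  have h1 : L * Xᵀ = N.toCols₁ * (L0 * Xᵀ) := by
    rw [hmul L, hmul L0, ← hN, Matrix.add_mul, Matrix.mul_assoc, Matrix.mul_assoc, hYX',
      Matrix.mul_zero, add_zero]
  have h2 : fromRows (L.submatrix id e) (Y.submatrix id e) =
      fromBlocks N.toCols₁ N.toCols₂ 0 1 * fromRows (L0.submatrix id e) (Y.submatrix id e) := by
    rw [fromBlocks_mul_fromRows, hN, Matrix.zero_mul, Matrix.one_mul, zero_add]
  have h3 : D6 L Y = N.toCols₁.det * D6 L0 Y := by
    rw [hD, hD, h2, det_mul, det_fromBlocks_zero₂₁, det_one, mul_one]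
  rw [h1, det_mul, h3]
  rw [← hD] at hL0
  field_simp

end Pool.Agent.H264.ZL
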