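import Mathlib
import Pool.Agent.H892.ZL.Stm

set_option autoImplicit false

/-! # ZL-R: the image of the generic point under an isomorphism (helper264 for helper892) -/

namespace Pool.Agent.H264.ZL

open Pool.Agent.H892.ZL
open MvPolynomial Matrix

/-- homogeneity of the values -/
theorem hom_aeval {E : Type} [Field E] [Algebra ℂ E] {n : ℕ} {A : MvPolynomial (Fin 6) ℂ}
    (hA : A.IsHomogeneous n) (t : E) (v : Fin 6 → E) :
    aeval (t • v) A = t ^ n * aeval v A := by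
  rw [aeval_def, aeval_def, eval₂_eq', eval₂_eq', Finset.mul_sum]
  refine Finset.sum_congr rfl fun d hd => ?_
  have h1 : ∑ i, d i = n := by
    have := hA (mem_support_iff.1 hd)
    rw [Finsupp.weight_apply, Finsupp.sum_fintype] at this
    · simpa using this
    · simp
  have h2 : ∏ i, (t • v) i ^ d i = t ^ n * ∏ i, v i ^ d i := by
    simp only [Pi.smul_apply, smul_eq_mul, mul_pow]
    rw [Finset.prod_mul_distrib, Finset.prod_pow_eq_pow_sum, h1]
  rw [h2]
  ring

theorem hom_eval {n : ℕ} {A : MvPolynomial (Fin 6) ℂ}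
    (hA : A.IsHomogeneous n) (t : ℂ) (v : Fin 6 → ℂ) :
    eval (t • v) A = t ^ n * eval v A := by
  have := hom_aeval hA t v
  rwa [aeval_eq_eval, aeval_eq_eval] at this

theorem prop2_smul {E : Type} [Field E] {a b : Fin 6 → E} (h : Prop2 a b) (hb : b ≠ 0) :
    ∃ t : E, a = t • b := by
  obtain ⟨i, hi⟩ := Function.ne_iff.1 hb
  have hi' : b i ≠ 0 := hi
  refine ⟨a i / b i, ?_⟩
  funext j
  rw [Pi.smul_apply, smul_eq_mul, div_mul_eq_mul_div, eq_div_iff hi']
  exact h j i |>.trans (by ring) |>.symm.symm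

theorem prop2_smul' {E : Type} [Field E] {a b : Fin 6 → E} (h : Prop2 a b) (hb : b ≠ 0)
    (ha : a ≠ 0) : ∃ t : E, t ≠ 0 ∧ a = t • b := by
  obtain ⟨t, ht⟩ := prop2_smul h hb
  refine ⟨t, ?_, ht⟩
  rintro rfl
  rw [zero_smul] at ht
  exact ha ht

theorem eval_gp (x y : Fin 3 → ℂ) (I : Fin 6) : eval (pt x y) (gp I) = aff x y I := by
  fin_cases I <;> simp [gp, aff, plu, pt]

theorem eval_aeval_gp (x y : Fin 3 → ℂ) (A : MvPolynomial (Fin 6) ℂ) :
    eval (pt x y) (aeval gp A) = eval (aff x y) A := by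
  have h := comp_aeval_apply (R := ℂ) gp (aeval (pt x y) : SA →ₐ[ℂ] ℂ) A
  simp only [aeval_eq_eval] at h
  rw [h]
  congr 2
  funext I
  exact eval_gp x y I

theorem eval_aeval {σ : Type} (v : σ → ℂ) (f : Fin 6 → MvPolynomial σ ℂ) (A : MvPolynomial (Fin 6) ℂ) :
    eval v (aeval f A) = eval (fun i => eval v (f i)) A := by
  have h := comp_aeval_apply (R := ℂ) f (aeval v : MvPolynomial σ ℂ →ₐ[ℂ] ℂ) A
  simpa only [aeval_eq_eval] using h

/-- the points of the chart -/
def Tp (K : MvPolynomial (Fin 6) ℂ) : Set (Fin 6 → ℂ) :=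
  {v | ∃ x y : Fin 3 → ℂ, y ≠ 0 ∧ eval (pt x y) (kap K) = 0 ∧ v = aff x y}

theorem Tp_cone {K : MvPolynomial (Fin 6) ℂ} {v : Fin 6 → ℂ} (hv : v ∈ Tp K) : v ∈ Cone K := by
  obtain ⟨x, y, hy, hk, rfl⟩ := hv
  refine ⟨?_, ?_, ?_⟩
  · intro h
    apply hy
    funext i
    have h2 := congrFun h 2
    have h4 := congrFun h 4
    have h5 := congrFun h 5
    simp [aff, plu] at h2 h4 h5
    fin_cases i
    · exact h2
    · exact h4
    · exact h5
  · simp [Gp, aff, plu]
    ring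
  · rw [← eval_aeval_gp]
    exact hk

/-- the evaluation principle -/
theorem main_eval (h1 : S_NULL) {K : MvPolynomial (Fin 6) ℂ} (hK : Good K) (hp : Prime (kap K))
    {E : Type} [Field E] [Algebra ℂ E] {π : SA →ₐ[ℂ] E} (hπ : GenPt (kap K) E π)
    (A : MvPolynomial (Fin 6) ℂ) :
    aeval (fun I => π (gp I)) A = 0 ↔ ∀ v ∈ Tp K, eval v A = 0 := by
  rw [← comp_aeval_apply, hπ.ker]
  constructor
  · rintro ⟨B, hB⟩ v ⟨x, y, hy, hk, rfl⟩
    rw [← eval_aeval_gp, hB, map_mul, hk, zero_mul]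
  · intro h
    refine h1 K hK hp _ fun x y hy hk => ?_
    rw [eval_aeval_gp]
    exact h _ ⟨x, y, hy, hk, rfl⟩

theorem main_eval2 (h1 : S_NULL) {K : MvPolynomial (Fin 6) ℂ} (hK : Good K) (hp : Prime (kap K))
    {E : Type} [Field E] [Algebra ℂ E] {π : SA →ₐ[ℂ] E} (hπ : GenPt (kap K) E π)
    (f : Fin 6 → MvPolynomial (Fin 6) ℂ) (A : MvPolynomial (Fin 6) ℂ) :
    aeval (fun i => aeval (fun I => π (gp I)) (f i)) A = 0 ↔
      ∀ v ∈ Tp K, eval (fun i => eval v (f i)) A = 0 := by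
  have e := comp_aeval_apply (R := ℂ) f
    (aeval (fun I => π (gp I)) : MvPolynomial (Fin 6) ℂ →ₐ[ℂ] E) A
  rw [← e, main_eval h1 hK hp hπ]
  simp only [eval_aeval]

theorem t_R (h1 : S_NULL) (h2 : S_EXPT) : S_R := by
  intro K K' Φ Ψ hK hK' hp hI E _ _ π hπ
  -- a point
  obtain ⟨y0, hy0, hk0⟩ := h2 K hK.hom 0
  have hv0 : aff 0 y0 ∈ Tp K := ⟨0, y0, hy0, hk0, rfl⟩
  obtain ⟨d, f0, hf0, k, hk⟩ := hI.rep _ (Tp_cone hv0)
  have hG0 : ∀ v ∈ Tp K, Φ v ≠ 0 := fun v hv => (hI.maps v (Tp_cone hv)).1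
  -- representatives at the points
  have hrep : ∀ (e : ℕ) (f : Fin 6 → MvPolynomial (Fin 6) ℂ), Rep (Cone K) Φ e f →
      ∀ v ∈ Tp K, ∃ t : ℂ, (fun i => eval v (f i)) = t • Φ v := by
    intro e f hf v hv
    by_cases h : ∃ i, eval v (f i) ≠ 0
    · exact prop2_smul (hf.2 v (Tp_cone hv) h) (hG0 v hv)
    · push Not at h
      refine ⟨0, ?_⟩
      rw [zero_smul]
      funext i
      exact h i
  obtain ⟨P, hP⟩ : ∃ P : Fin 6 → E, P = fun I => π (gp I) := ⟨_, rfl⟩
  have ev1 : ∀ A : MvPolynomial (Fin 6) ℂ, aeval P A = 0 ↔ ∀ v ∈ Tp K, eval v A = 0 := by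
    intro A
    rw [hP]
    exact main_eval h1 hK hp hπ A
  have ev2 : ∀ (f : Fin 6 → MvPolynomial (Fin 6) ℂ) (A : MvPolynomial (Fin 6) ℂ),
      aeval (fun i => aeval P (f i)) A = 0 ↔ ∀ v ∈ Tp K, eval (fun i => eval v (f i)) A = 0 := by
    intro f A
    rw [hP]
    exact main_eval2 h1 hK hp hπ f A
  rw [← hP]
  obtain ⟨R, hR⟩ : ∃ R : Fin 6 → E, R = fun i => aeval P (f0 i) := ⟨_, rfl⟩
  have hRk : R k ≠ 0 := by
    rw [hR]
    intro h
    exact hk ((ev1 (f0 k)).1 h _ hv0)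
  have hR0 : R ≠ 0 := fun h => hRk (by rw [h]; rfl)
  have evR : ∀ A : MvPolynomial (Fin 6) ℂ,
      aeval R A = 0 ↔ ∀ v ∈ Tp K, eval (fun i => eval v (f0 i)) A = 0 := by
    intro A
    rw [hR]
    exact ev2 f0 A
  -- homogeneous polynomials vanishing at the images
  have hback : ∀ (n : ℕ) (A : MvPolynomial (Fin 6) ℂ), A.IsHomogeneous n →
      (∀ v ∈ Tp K, eval (Φ v) A = 0) → aeval R A = 0 := by
    intro n A hA h
    rw [evR]
    intro v hv
    obtain ⟨t, ht⟩ := hrep d f0 hf0 v hv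
    rw [ht, hom_eval hA, h v hv, mul_zero]
  -- item 5
  have h5 : ∀ d f, Rep (Cone K) Φ d f → Prop2 (fun i => aeval P (f i)) R := by
    intro e f hf i j
    have h3 : aeval P (f i * f0 j - f j * f0 i) = 0 := by
      rw [ev1]
      intro v hv
      obtain ⟨t, ht⟩ := hrep d f0 hf0 v hv
      obtain ⟨s, hs⟩ := hrep e f hf v hv
      have a1 := congrFun ht i
      have a2 := congrFun ht j
      have a3 := congrFun hs i
      have a4 := congrFun hs j
      simp only [Pi.smul_apply, smul_eq_mul] at a1 a2 a3 a4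
      rw [map_sub, map_mul, map_mul, a1, a2, a3, a4]
      ring
    rw [map_sub, map_mul, map_mul, sub_eq_zero] at h3
    rw [hR]
    exact h3
  refine ⟨R, hR0, ?_, ?_, ?_, h5, ?_⟩
  · refine hback 2 Gp ?_ ?_
    · unfold Gp
      refine IsHomogeneous.add (IsHomogeneous.sub ?_ ?_) ?_
      · exact (isHomogeneous_X ℂ 0).mul (isHomogeneous_X ℂ 5)
      · exact (isHomogeneous_X ℂ 1).mul (isHomogeneous_X ℂ 4)
      · exact (isHomogeneous_X ℂ 2).mul (isHomogeneous_X ℂ 3)
    · intro v hv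
      exact (hI.maps v (Tp_cone hv)).2.1
  · refine hback 3 K' hK' ?_
    intro v hv
    exact (hI.maps v (Tp_cone hv)).2.2
  · intro n A hA
    constructor
    · intro h x y hy hxy
      have hv : aff x y ∈ Tp K := ⟨x, y, hy, hxy, rfl⟩
      obtain ⟨e, f, hf, i, hi⟩ := hI.rep _ (Tp_cone hv)
      obtain ⟨t, ht⟩ := prop2_smul (h5 e f hf) hR0
      have h3 : aeval (fun i => aeval P (f i)) A = 0 := by
        rw [ht, hom_aeval hA, h, mul_zero]
      have h4 := (ev2 f A).1 h3 _ hv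
      have hne : (fun i => eval (aff x y) (f i)) ≠ 0 := fun h => hi (congrFun h i)
      obtain ⟨s, hs0, hs⟩ := prop2_smul' (hf.2 _ (Tp_cone hv) ⟨i, hi⟩) (hG0 _ hv) hne
      rw [hs, hom_eval hA] at h4
      exact (mul_eq_zero.1 h4).resolve_left (pow_ne_zero _ hs0)
    · intro h
      refine hback n A hA ?_
      rintro v ⟨x, y, hy, hxy, rfl⟩
      exact h x y hy hxy
  · intro e g hg i j
    have h3 : aeval P ((aeval f0 (g i) * X j - aeval f0 (g j) * X i) * f0 k) = 0 := by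
      rw [ev1]
      intro v hv
      rw [map_mul, map_sub, map_mul, map_mul, eval_aeval, eval_aeval, eval_X, eval_X]
      by_cases hf : eval v (f0 k) = 0
      · rw [hf, mul_zero]
      · have hne : (fun i => eval v (f0 i)) ≠ 0 := fun h => hf (congrFun h k)
        obtain ⟨t, ht0, ht⟩ := prop2_smul' (hf0.2 v (Tp_cone hv) ⟨k, hf⟩) (hG0 v hv) hne
        rw [ht]
        have hc' : Φ v ∈ Cone K' := hI.maps v (Tp_cone hv)
        have hc : t • Φ v ∈ Cone K' := by
          refine ⟨?_, ?_, ?_⟩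
          · rw [← ht]; exact hne
          · have hG : Gp.IsHomogeneous 2 := by
              unfold Gp
              refine IsHomogeneous.add (IsHomogeneous.sub ?_ ?_) ?_
              · exact (isHomogeneous_X ℂ 0).mul (isHomogeneous_X ℂ 5)
              · exact (isHomogeneous_X ℂ 1).mul (isHomogeneous_X ℂ 4)
              · exact (isHomogeneous_X ℂ 2).mul (isHomogeneous_X ℂ 3)
            rw [hom_eval hG, hc'.2.1, mul_zero]
          · rw [hom_eval hK', hc'.2.2, mul_zero]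
        have hw1 : Ψ (t • Φ v) ≠ 0 := (hI.maps' _ hc).1
        have hw2 : Ψ (Φ v) ≠ 0 := (hI.maps' _ hc').1
        obtain ⟨b, hb⟩ := prop2_smul (hI.compat' _ hc' t ht0) hw2
        obtain ⟨c, hc3⟩ := prop2_smul (hI.inv v (Tp_cone hv)) (Tp_cone hv).1
        have ha : ∃ a : ℂ, (fun i => eval (t • Φ v) (g i)) = a • Ψ (t • Φ v) := by
          by_cases h : ∃ i, eval (t • Φ v) (g i) ≠ 0
          · exact prop2_smul (hg.2 _ hc h) hw1
          · push Not at h
            refine ⟨0, ?_⟩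
            rw [zero_smul]
            funext i
            exact h i
        obtain ⟨a, ha⟩ := ha
        rw [hb, hc3] at ha
        have a1 := congrFun ha i
        have a2 := congrFun ha j
        simp only [Pi.smul_apply, smul_eq_mul] at a1 a2
        rw [a1, a2]
        ring
    have e1 : ∀ A : MvPolynomial (Fin 6) ℂ, aeval P (aeval f0 A) = aeval R A := by
      intro A
      rw [hR]
      exact comp_aeval_apply (R := ℂ) f0 (aeval P : MvPolynomial (Fin 6) ℂ →ₐ[ℂ] E) A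
    rw [map_mul, map_sub, map_mul, map_mul, e1, e1, aeval_X, aeval_X] at h3
    have hk' : aeval P (f0 k) ≠ 0 := by
      rw [hR] at hRk
      exact hRk
    exact sub_eq_zero.1 ((mul_eq_zero.1 h3).resolve_right hk')

end Pool.Agent.H264.ZL
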